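import Pool.Agent.Helper75.CR.St

/-!
# Project CR (MP_265e56_al), module H3: `α` of type one, `β` not
-/

set_option autoImplicit false

namespace Pool.Agent.Helper92.CR

open Pool.Agent.Helper75.CR Helper1.IM

/-- Type one: if the signs of one letter words are related then only the first index matters. -/
theorem typeOne_sign {B : Type} {S : Sgn B} {θ ρ : Pg S} (hB : Helper75.CR.StB) (hθ : Bs S θ) (hρ : LeP θ ρ) (hc : CP ρ)
    (hA : AA ρ) {a c : ℕ × B} {s t : Wo B} (h1 : Er ρ [a] [c]) (h : cn (a :: s) = cn (c :: t)) :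
    Er ρ (a :: s) (c :: t) := by
  obtain ⟨-, hac, ⟨p, hp⟩, -⟩ := h1
  have h2 : ρ.r (a :: (p ++ t)) (c :: t) := by
    have := ρ.mulR t hp
    simpa using this
  have h3 : Er ρ (a :: (p ++ t)) (c :: t) := Er.of hc (by simp) h2
  have h4 : Er ρ (a :: s) (a :: (p ++ t)) := hB B S θ ρ hθ hρ hA a s (p ++ t) (h.trans h3.cn.symm)
  exact h4.trans h3

theorem hH3 (hA : Helper75.CR.StA) (hB : Helper75.CR.StB) (hC : Helper75.CR.StC) (hD : Helper75.CR.StD) :
    Helper75.CR.StH3 := by
  intro B S θ hθ α β hα hβ hcα hcβ hAα hAβ u w v huw hwv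
  have hv0 : v ≠ [] := hwv.ne2
  obtain ⟨a, u', rfl⟩ := List.exists_cons_of_ne_nil huw.ne
  obtain ⟨b, w', rfl⟩ := List.exists_cons_of_ne_nil hwv.ne
  obtain ⟨c, v', rfl⟩ := List.exists_cons_of_ne_nil hv0
  have hcn : cn (a :: u') = cn (c :: v') := huw.cn.trans hwv.cn
  by_cases hab : a.1 = b.1
  swap
  · exact ⟨a :: u', Er.rfl' β (by simp), hC B S θ α hθ hα a b u' w' hab huw _ _ (by simp) hcn⟩
  have hbc : b.1 = c.1 := by
    by_contra hbc
    apply hAβ
    refine hA B S θ β hθ hβ b.1 c.1 (b :: w') (c :: v') hbc hwv ?_ ?_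
    · exact ⟨[], b, w', rfl, rfl, by simp, by simp⟩
    · exact ⟨[], c, v', rfl, rfl, by simp, by simp⟩
  by_cases hac : a = c
  · subst hac
    exact ⟨a :: u', Er.rfl' β (by simp), hB B S θ α hθ hα hAα a u' v' hcn⟩
  by_cases hab' : a = b
  · subst hab'
    -- `a = b ≠ c`
    have h1 : Er β [a] [c] := by
      have := hD B S θ β hθ hβ a c w' v' hbc hac hwv a.1 a.2 c.2
      have hc' : (a.1, c.2) = c := by rw [hbc]
      rw [hc'] at this
      exact this
    obtain ⟨-, -, -, q, hq⟩ := h1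
    have h2 : β.r (c :: (q ++ u')) (a :: u') := by
      have := β.mulR u' hq
      simpa using this
    have h3 : Er β (c :: (q ++ u')) (a :: u') := Er.of hcβ (by simp) h2
    exact ⟨c :: (q ++ u'), h3.symm, hB B S θ α hθ hα hAα c (q ++ u') v' (h3.cn.trans hcn)⟩
  · have h1 : Er α [a] [c] := by
      have := hD B S θ α hθ hα a b u' w' hab hab' huw a.1 a.2 c.2
      have hc' : (a.1, c.2) = c := by rw [hab, hbc]
      rw [hc'] at this
      exact this
    exact ⟨a :: u', Er.rfl' β (by simp), typeOne_sign hB hθ hα hcα hAα h1 hcn⟩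

end Pool.Agent.Helper92.CR
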